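import Mathlib

/-!
# Numerical semigroups whose set `E(S)` consists of two incomparable elements

`S` is a numerical semigroup (an `AddSubmonoid ℕ` with finite complement), `P_S(x) = (1-x) ∑_{s ∈ S} x^s`
and `(e_j)_{j ≥ 1}` is its exponent sequence, `P_S = ∏_{j ≥ 1} (1-x^j)^{e_j}` in `ℤ[[x]]`.
`E(S)` is the set of the `d ≥ 2` with `e_d ≠ 0` which are not minimal generators.

Theorem `result` : if `E(S) = {a, b}` with `a, b` incomparable for `≤_S`, then `S` is a complete
intersection (it has a minimal presentation with `e(S) - 1` elements).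
Theorem `exists_unique_exponents` : the exponent sequence exists and is unique.

Proof.  In low degrees the product formula shows that `e_d ≠ 0` forces `d ∈ S` and that `e_n = -1`
at the minimal generators.  Evaluating the resulting polynomial identity at roots of unity gives
`e_a, e_b > 0` and that every minimal generator divides `a` or `b`; comparing the order of
vanishing and the leading value at `1` gives `e(S) = p + q + 1` and `∏ n_i = a^p b^q`, with
`p = e_a`, `q = e_b`.  Multiplying the Hilbert series by the denominators shows that every element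
of `S` with neither `s - a` nor `s - b` in `S` has exactly one factorization, and that `a`, `b`
have exactly `p + 1` and `q + 1` factorizations, with pairwise disjoint supports.  Counting, all
the factorizations of `a` (or of `b`) are of the form `(a/n_i) n_i`, and there is a factorization of
the other element supported on the divisors of the first one.  The corresponding `p + q` relations
reduce every element of `ℕ^e` to a normal form with respect to a fixed generator `n_0 ∣ a`; there are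
exactly `n_0` such normal forms up to the coordinate of `n_0`, and they represent all the classes
modulo `n_0`.  So the `p + q = e(S) - 1` relations generate the kernel congruence.
-/

set_option autoImplicit false

open Finset

namespace Pool.Agent.Results.MP_a0aa5b_al.TwoIncomparable

/-- The minimal generators of `S`: the nonzero elements which are not sums of two nonzero
elements of `S`. -/
def minGens (S : AddSubmonoid ℕ) : Set ℕ :=
  {n | n ∈ S ∧ n ≠ 0 ∧ ∀ x ∈ S, ∀ y ∈ S, x ≠ 0 → y ≠ 0 → x + y ≠ n}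

open Classical in
/-- The Hilbert series `∑_{s ∈ S} x^s`. -/
noncomputable def hilb (S : AddSubmonoid ℕ) : PowerSeries ℤ :=
  PowerSeries.mk fun n => if n ∈ S then 1 else 0

/-- `P_S = (1 - x) ∑_{s ∈ S} x^s`. -/
noncomputable def P (S : AddSubmonoid ℕ) : PowerSeries ℤ := (1 - PowerSeries.X) * hilb S

/-- `P_S = ∏_{j ≥ 1} (1 - x^j)^{e_j}` in `ℤ[[x]]`: for every `n` the power series `P_S` and
`∏_{j ≤ n} (1 - x^j)^{e_j}` agree up to degree `n`.  (The factors with negative exponents, which
are units of `ℤ[[x]]`, are moved to the other side; `(e j).toNat = max (e_j) 0`.  The value `e 0`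
plays no role.) -/
def IsExponentSequence (S : AddSubmonoid ℕ) (e : ℕ → ℤ) : Prop :=
  ∀ n : ℕ, (PowerSeries.X : PowerSeries ℤ) ^ (n + 1) ∣
    P S * ∏ j ∈ Icc 1 n, (1 - PowerSeries.X ^ j) ^ (-e j).toNat
      - ∏ j ∈ Icc 1 n, (1 - PowerSeries.X ^ j) ^ (e j).toNat

/-- The set `E(S)` of the `d ≥ 2` with `e_d ≠ 0` that are not minimal generators. -/
def E (S : AddSubmonoid ℕ) (e : ℕ → ℤ) : Set ℕ := {d | 2 ≤ d ∧ e d ≠ 0 ∧ d ∉ minGens S}

/-- `a ≤_S b`, i.e. `b - a ∈ S`. -/
def leS (S : AddSubmonoid ℕ) (a b : ℕ) : Prop := ∃ s ∈ S, a + s = b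

section A

open PowerSeries

variable {S : AddSubmonoid ℕ}

/-- supported on `S`. -/
def Supp (S : AddSubmonoid ℕ) (f : PowerSeries ℤ) : Prop := ∀ k, k ∉ S → coeff k f = 0

theorem Supp.mul {f g : PowerSeries ℤ} (hf : Supp S f) (hg : Supp S g) : Supp S (f * g) := by
  intro k hk
  rw [coeff_mul]
  apply Finset.sum_eq_zero
  rintro ⟨i, j⟩ hij
  rw [Finset.HasAntidiagonal.mem_antidiagonal] at hij
  by_cases hi : i ∈ S
  · by_cases hj : j ∈ S
    · exact absurd (hij ▸ S.add_mem hi hj) hk
    · simp [hg j hj]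
  · simp [hf i hi]

theorem supp_one : Supp S 1 := by
  intro k hk
  have : k ≠ 0 := by rintro rfl; exact hk S.zero_mem
  rw [coeff_one, if_neg this]

theorem supp_one_sub {j : ℕ} (hj : j ∈ S) : Supp S (1 - X ^ j) := by
  intro k hk
  have h1 : k ≠ 0 := by rintro rfl; exact hk S.zero_mem
  have h2 : k ≠ j := by rintro rfl; exact hk hj
  rw [map_sub, coeff_one, if_neg h1, coeff_X_pow, if_neg h2, sub_zero]

theorem Supp.pow {f : PowerSeries ℤ} (hf : Supp S f) (n : ℕ) : Supp S (f ^ n) := by
  induction n with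
  | zero => simpa using supp_one
  | succ n ih => rw [pow_succ]; exact ih.mul hf

theorem supp_hilb : Supp S (hilb S) := by
  intro k hk
  simp [hilb, hk]

theorem coeff_zero_hilb : coeff 0 (hilb S) = 1 := by
  simp [hilb, S.zero_mem]

theorem const_one_sub_pow {j : ℕ} (hj : j ≠ 0) (m : ℕ) :
    coeff 0 ((1 - X ^ j : PowerSeries ℤ) ^ m) = 1 := by
  rw [coeff_zero_eq_constantCoeff_apply]
  simp [hj]

theorem coeff_zero_mul' (f g : PowerSeries ℤ) : coeff 0 (f * g) = coeff 0 f * coeff 0 g := by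
  rw [coeff_zero_eq_constantCoeff_apply, coeff_zero_eq_constantCoeff_apply,
    coeff_zero_eq_constantCoeff_apply, map_mul]

/-- Coefficient after multiplication by `(1 - X^c)^m` in degree `c`. -/
theorem coeff_self (f : PowerSeries ℤ) {c : ℕ} (hc : c ≠ 0) (m : ℕ) :
    coeff c (f * (1 - X ^ c) ^ m) = coeff c f - m * coeff 0 f := by
  induction m with
  | zero => simp
  | succ m ih =>
    rw [pow_succ, ← mul_assoc, mul_sub, mul_one, map_sub, ih]
    have h1 : coeff c (f * (1 - X ^ c) ^ m * X ^ c) = coeff 0 (f * (1 - X ^ c) ^ m) := by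
      have := coeff_mul_X_pow (f * (1 - X ^ c) ^ m) c 0
      simpa using this
    rw [h1, coeff_zero_mul', const_one_sub_pow hc]
    push_cast; ring

/-- Coefficient after multiplication by `(1 - X^c)^m` in a degree `s` with `s - c ∉ S`. -/
theorem coeff_other {f : PowerSeries ℤ} (hf : Supp S f) {c s : ℕ} (hc : c ∈ S)
    (h : ∀ t ∈ S, t + c ≠ s) (m : ℕ) :
    coeff s (f * (1 - X ^ c) ^ m) = coeff s f := by
  induction m with
  | zero => simp
  | succ m ih =>
    rw [pow_succ, ← mul_assoc, mul_sub, mul_one, map_sub, ih]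
    have h1 : coeff s (f * (1 - X ^ c) ^ m * X ^ c) = 0 := by
      rw [coeff_mul_X_pow']
      split_ifs with hcs
      · apply (hf.mul ((supp_one_sub hc).pow m)) _
        intro h2
        exact h _ h2 (by omega)
      · rfl
    rw [h1, sub_zero]

/-- In a degree which is a minimal generator coefficients are additive. -/
theorem coeff_min {f g : PowerSeries ℤ} (hf : Supp S f) (hg : Supp S g)
    (hf0 : coeff 0 f = 1) (hg0 : coeff 0 g = 1) {n : ℕ} (hn : n ∈ minGens S) :
    coeff n (f * g) = coeff n f + coeff n g := by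
  obtain ⟨hnS, hn0, hmin⟩ := hn
  have h1 : f * g = f + g + ((f - 1) * (g - 1) - 1) := by ring
  rw [h1, map_add, map_add, map_sub, coeff_one, if_neg hn0, sub_zero]
  have h2 : coeff n ((f - 1) * (g - 1)) = 0 := by
    rw [coeff_mul]
    apply Finset.sum_eq_zero
    rintro ⟨i, j⟩ hij
    rw [Finset.HasAntidiagonal.mem_antidiagonal] at hij
    simp only at hij ⊢
    by_cases hi0 : i = 0
    · rw [hi0, map_sub, hf0, coeff_one, if_pos rfl]; simp
    by_cases hj0 : j = 0
    · rw [hj0, map_sub (coeff 0), hg0, coeff_one, if_pos rfl]; simp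
    rw [map_sub, map_sub, coeff_one, coeff_one, if_neg hi0, if_neg hj0, sub_zero, sub_zero]
    by_cases hi : i ∈ S
    · by_cases hj : j ∈ S
      · exact absurd hij (hmin i hi j hj hi0 hj0)
      · rw [hg j hj, mul_zero]
    · rw [hf i hi, zero_mul]
  rw [h2, add_zero]

theorem coeff_min_pow {j n : ℕ} (hj : j ∈ S) (hj0 : j ≠ 0) (hjn : n ≠ j) (hn : n ∈ minGens S)
    (m : ℕ) : coeff n ((1 - X ^ j : PowerSeries ℤ) ^ m) = 0 := by
  induction m with
  | zero => rw [pow_zero, coeff_one, if_neg hn.2.1]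
  | succ m ih =>
    rw [pow_succ, coeff_min ((supp_one_sub hj).pow m) (supp_one_sub hj)
      (const_one_sub_pow hj0 m) (by simpa using const_one_sub_pow hj0 1) hn, ih, map_sub,
      coeff_one, if_neg hn.2.1, coeff_X_pow, if_neg hjn]
    ring

/-- Products of good factors. -/
theorem good_prod (s : Finset ℕ) (k : ℕ → ℕ) (h0 : ∀ j ∈ s, j ≠ 0)
    (h : ∀ j ∈ s, k j ≠ 0 → j ∈ S) :
    Supp S (∏ j ∈ s, (1 - X ^ j : PowerSeries ℤ) ^ k j) ∧
      coeff 0 (∏ j ∈ s, (1 - X ^ j : PowerSeries ℤ) ^ k j) = 1 := by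
  induction s using Finset.induction_on with
  | empty => exact ⟨by simpa using supp_one, by simp⟩
  | insert a s ha ih =>
    obtain ⟨i1, i2⟩ := ih (fun j hj => h0 j (Finset.mem_insert_of_mem hj))
      (fun j hj => h j (Finset.mem_insert_of_mem hj))
    rw [Finset.prod_insert ha]
    have ha0 := h0 a (Finset.mem_insert_self _ _)
    refine ⟨?_, ?_⟩
    · by_cases hk : k a = 0
      · rw [hk, pow_zero, one_mul]; exact i1
      · exact ((supp_one_sub (h a (Finset.mem_insert_self _ _) hk)).pow _).mul i1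
    · rw [coeff_zero_mul', const_one_sub_pow ha0, i2, one_mul]

theorem good_prod_min (s : Finset ℕ) (k : ℕ → ℕ) (h0 : ∀ j ∈ s, j ≠ 0)
    (h : ∀ j ∈ s, k j ≠ 0 → j ∈ S) {n : ℕ} (hn : n ∈ minGens S) (hns : n ∉ s) :
    coeff n (∏ j ∈ s, (1 - X ^ j : PowerSeries ℤ) ^ k j) = 0 := by
  induction s using Finset.induction_on with
  | empty => rw [Finset.prod_empty, coeff_one, if_neg hn.2.1]
  | insert a s ha ih =>
    have g1 := good_prod s k (fun j hj => h0 j (Finset.mem_insert_of_mem hj))
      (fun j hj => h j (Finset.mem_insert_of_mem hj))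
    have i1 := ih (fun j hj => h0 j (Finset.mem_insert_of_mem hj))
      (fun j hj => h j (Finset.mem_insert_of_mem hj))
      (fun hh => hns (Finset.mem_insert_of_mem hh))
    rw [Finset.prod_insert ha]
    have ha0 := h0 a (Finset.mem_insert_self _ _)
    by_cases hk : k a = 0
    · rw [hk, pow_zero, one_mul]; exact i1
    · have haS := h a (Finset.mem_insert_self _ _) hk
      rw [coeff_min ((supp_one_sub haS).pow _) g1.1 (const_one_sub_pow ha0 _) g1.2 hn, i1,
        coeff_min_pow haS ha0 (by rintro rfl; exact hns (Finset.mem_insert_self _ _)) hn, add_zero]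

variable {e : ℕ → ℤ}

theorem e_one (h1S : 1 ∉ S) (he : IsExponentSequence S e) : e 1 = 1 := by
  have h := he 1
  rw [Finset.Icc_self, Finset.prod_singleton, Finset.prod_singleton, X_pow_dvd_iff] at h
  have h2 := h 1 (by norm_num)
  rw [map_sub, coeff_self _ one_ne_zero, sub_eq_zero] at h2
  have h3 : coeff 1 ((1 - X ^ 1 : PowerSeries ℤ) ^ (e 1).toNat) = - (e 1).toNat := by
    have := coeff_self (1 : PowerSeries ℤ) one_ne_zero (e 1).toNat
    rw [one_mul] at this
    rw [this]
    simp [coeff_one]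
  have hP0 : coeff 0 (P S) = 1 := by
    rw [P, coeff_zero_mul', coeff_zero_hilb]; simp
  have hP1 : coeff 1 (P S) = -1 := by
    rw [P, sub_mul, one_mul, map_sub]
    have : coeff 1 (X * hilb S) = coeff 0 (hilb S) := by
      have := coeff_succ_X_mul 0 (hilb S)
      simpa using this
    rw [this, coeff_zero_hilb]
    simp [hilb, h1S]
  rw [h3, hP0, hP1] at h2
  omega

theorem unit_one_sub_X : IsUnit (1 - X : PowerSeries ℤ) := by
  rw [isUnit_iff_constantCoeff]
  simp

theorem trunc_H (h1S : 1 ∉ S) (he : IsExponentSequence S e) (n : ℕ) (hn : 1 ≤ n) :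
    (X : PowerSeries ℤ) ^ (n + 1) ∣
      hilb S * ∏ j ∈ Icc 2 n, (1 - X ^ j) ^ (-e j).toNat
        - ∏ j ∈ Icc 2 n, (1 - X ^ j) ^ (e j).toNat := by
  have h := he n
  have hI : Icc 1 n = insert 1 (Icc 2 n) := by
    ext j; simp only [Finset.mem_Icc, Finset.mem_insert]; omega
  have h1 : (1 : ℕ) ∉ Icc 2 n := by simp
  rw [hI, Finset.prod_insert h1, Finset.prod_insert h1, e_one h1S he] at h
  have e1 : P S * ((1 - X ^ 1) ^ (-(1 : ℤ)).toNat * ∏ j ∈ Icc 2 n, (1 - X ^ j) ^ (-e j).toNat)
      - (1 - X ^ 1) ^ (1 : ℤ).toNat * ∏ j ∈ Icc 2 n, (1 - X ^ j) ^ (e j).toNat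
      = (1 - X) * (hilb S * ∏ j ∈ Icc 2 n, (1 - X ^ j) ^ (-e j).toNat
        - ∏ j ∈ Icc 2 n, (1 - X ^ j) ^ (e j).toNat) := by
    have : (-(1 : ℤ)).toNat = 0 := by decide
    have h' : (1 : ℤ).toNat = 1 := by decide
    rw [this, h', P]; ring
  rw [e1] at h
  exact (unit_one_sub_X.dvd_mul_left).1 h

/-- one step. -/
theorem step (h1S : 1 ∉ S) (he : IsExponentSequence S e) (n : ℕ) (hn : 2 ≤ n) :
    coeff n (hilb S * ∏ j ∈ Icc 2 (n - 1), (1 - X ^ j) ^ (-e j).toNat) - (-e n).toNat
      = coeff n (∏ j ∈ Icc 2 (n - 1), (1 - X ^ j : PowerSeries ℤ) ^ (e j).toNat)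
        - (e n).toNat := by
  have h := trunc_H h1S he n (by omega)
  have hI : Icc 2 n = insert n (Icc 2 (n - 1)) := by
    ext j; simp only [Finset.mem_Icc, Finset.mem_insert]; omega
  have h1 : n ∉ Icc 2 (n - 1) := by simp; omega
  rw [X_pow_dvd_iff] at h
  have h2 := h n (by omega)
  rw [hI, Finset.prod_insert h1, Finset.prod_insert h1, map_sub, sub_eq_zero] at h2
  have e1 : hilb S * ((1 - X ^ n) ^ (-e n).toNat * ∏ j ∈ Icc 2 (n - 1), (1 - X ^ j) ^ (-e j).toNat)
      = (hilb S * ∏ j ∈ Icc 2 (n - 1), (1 - X ^ j) ^ (-e j).toNat) * (1 - X ^ n) ^ (-e n).toNat := by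
    ring
  have e0 : ∀ k : ℕ → ℕ, coeff 0 (∏ j ∈ Icc 2 (n - 1), (1 - X ^ j : PowerSeries ℤ) ^ k j) = 1 := by
    intro k
    rw [coeff_zero_eq_constantCoeff_apply, map_prod]
    apply Finset.prod_eq_one
    intro j hj
    have : j ≠ 0 := by simp only [Finset.mem_Icc] at hj; omega
    rw [← coeff_zero_eq_constantCoeff_apply]
    exact const_one_sub_pow this _
  rw [e1, coeff_self _ (by omega), mul_comm ((1 - X ^ n : PowerSeries ℤ) ^ (e n).toNat),
    coeff_self _ (by omega), coeff_zero_mul', coeff_zero_hilb, e0, e0] at h2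
  simpa using h2

theorem mem_of_ne (h1S : 1 ∉ S) (he : IsExponentSequence S e) :
    ∀ n, 2 ≤ n → e n ≠ 0 → n ∈ S := by
  intro n
  induction n using Nat.strong_induction_on with
  | _ n ih =>
    intro hn hen
    by_contra hnS
    have h := step h1S he n hn
    have g1 := good_prod (S := S) (Icc 2 (n - 1)) (fun j => (-e j).toNat)
      (fun j hj => by simp only [Finset.mem_Icc] at hj; omega)
      (fun j hj hk => by
        simp only [Finset.mem_Icc] at hj
        exact ih j (by omega) (by omega) (by rintro h0; simp [h0] at hk))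
    have g2 := good_prod (S := S) (Icc 2 (n - 1)) (fun j => (e j).toNat)
      (fun j hj => by simp only [Finset.mem_Icc] at hj; omega)
      (fun j hj hk => by
        simp only [Finset.mem_Icc] at hj
        exact ih j (by omega) (by omega) (by rintro h0; simp [h0] at hk))
    rw [(supp_hilb.mul g1.1) n hnS, g2.1 n hnS] at h
    omega

theorem e_min (h1S : 1 ∉ S) (he : IsExponentSequence S e) {n : ℕ} (hn : n ∈ minGens S) :
    e n = -1 := by
  have hn2 : 2 ≤ n := by
    have h0 := hn.2.1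
    have h1 : n ≠ 1 := by rintro rfl; exact h1S hn.1
    omega
  have h := step h1S he n hn2
  have k1 : ∀ j ∈ Icc 2 (n - 1), j ≠ 0 := fun j hj => by
    simp only [Finset.mem_Icc] at hj; omega
  have k2 : ∀ j ∈ Icc 2 (n - 1), (-e j).toNat ≠ 0 → j ∈ S := fun j hj hk => by
    simp only [Finset.mem_Icc] at hj
    exact mem_of_ne h1S he j (by omega) (by rintro h0; simp [h0] at hk)
  have k3 : ∀ j ∈ Icc 2 (n - 1), (e j).toNat ≠ 0 → j ∈ S := fun j hj hk => by
    simp only [Finset.mem_Icc] at hj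
    exact mem_of_ne h1S he j (by omega) (by rintro h0; simp [h0] at hk)
  have k4 : n ∉ Icc 2 (n - 1) := by simp; omega
  have g1 := good_prod (S := S) (Icc 2 (n - 1)) (fun j => (-e j).toNat) k1 k2
  rw [coeff_min supp_hilb g1.1 coeff_zero_hilb g1.2 hn,
    good_prod_min (Icc 2 (n - 1)) (fun j => (-e j).toNat) k1 k2 hn k4,
    good_prod_min (Icc 2 (n - 1)) (fun j => (e j).toNat) k1 k3 hn k4] at h
  have h1 : coeff n (hilb S) = 1 := by simp [hilb, hn.1]
  rw [h1] at h
  omega

/-- The exact identity for the Hilbert series. -/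
theorem exact_id (h1S : 1 ∉ S) (he : IsExponentSequence S e) {a b : ℕ}
    (hE : E S e = {a, b}) (hab : a ≠ b) (G : Finset ℕ) (hG : (G : Set ℕ) = minGens S) :
    hilb S * ((∏ v ∈ G, (1 - X ^ v)) * ((1 - X ^ a) ^ (-e a).toNat * (1 - X ^ b) ^ (-e b).toNat))
      = (1 - X ^ a) ^ (e a).toNat * (1 - X ^ b) ^ (e b).toNat := by
  have ha : a ∈ E S e := by rw [hE]; simp
  have hb : b ∈ E S e := by rw [hE]; simp
  have hGm : ∀ v, v ∈ G ↔ v ∈ minGens S := fun v => by rw [← hG]; simp
  have haG : a ∉ insert b G := by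
    rw [Finset.mem_insert, hGm]; rintro (h | h)
    · exact hab h
    · exact ha.2.2 h
  have hbG : b ∉ G := by rw [hGm]; exact hb.2.2
  obtain ⟨N, hN⟩ : ∃ N : ℕ, ∀ v ∈ insert a (insert b G), v ≤ N :=
    ⟨(insert a (insert b G)).sup id, fun v hv => Finset.le_sup (f := id) hv⟩
  have hsub : ∀ n, N ≤ n → insert a (insert b G) ⊆ Icc 2 n := by
    intro n hn v hv
    rw [Finset.mem_Icc]
    refine ⟨?_, (hN v hv).trans hn⟩
    rw [Finset.mem_insert, Finset.mem_insert, hGm] at hv
    rcases hv with rfl | rfl | hv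
    · exact ha.1
    · exact hb.1
    · have h0 := hv.2.1
      have h1 : v ≠ 1 := by rintro rfl; exact h1S hv.1
      omega
  have hzero : ∀ n, ∀ j ∈ Icc 2 n, j ∉ insert a (insert b G) → e j = 0 := by
    intro n j hj hj'
    by_contra h0
    rw [Finset.mem_insert, Finset.mem_insert, hGm] at hj'
    push Not at hj'
    have : j ∈ E S e := ⟨by simp only [Finset.mem_Icc] at hj; omega, h0, hj'.2.2⟩
    rw [hE] at this
    rcases this with h | h
    · exact hj'.1 h
    · exact hj'.2.1 h
  have hA : ∀ n, N ≤ n → ∏ j ∈ Icc 2 n, (1 - X ^ j : PowerSeries ℤ) ^ (-e j).toNat =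
      (∏ v ∈ G, (1 - X ^ v)) * ((1 - X ^ a) ^ (-e a).toNat * (1 - X ^ b) ^ (-e b).toNat) := by
    intro n hn
    rw [← Finset.prod_subset (hsub n hn) (fun j hj hj' => by rw [hzero n j hj hj']; simp),
      Finset.prod_insert haG, Finset.prod_insert hbG]
    have : ∏ v ∈ G, (1 - X ^ v : PowerSeries ℤ) ^ (-e v).toNat = ∏ v ∈ G, (1 - X ^ v) := by
      apply Finset.prod_congr rfl
      intro v hv
      rw [e_min h1S he ((hGm v).1 hv)]
      simp
    rw [this]; ring
  have hB : ∀ n, N ≤ n → ∏ j ∈ Icc 2 n, (1 - X ^ j : PowerSeries ℤ) ^ (e j).toNat =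
      (1 - X ^ a) ^ (e a).toNat * (1 - X ^ b) ^ (e b).toNat := by
    intro n hn
    rw [← Finset.prod_subset (hsub n hn) (fun j hj hj' => by rw [hzero n j hj hj']; simp),
      Finset.prod_insert haG, Finset.prod_insert hbG]
    have : ∏ v ∈ G, (1 - X ^ v : PowerSeries ℤ) ^ (e v).toNat = 1 := by
      apply Finset.prod_eq_one
      intro v hv
      rw [e_min h1S he ((hGm v).1 hv)]
      simp
    rw [this]; ring
  rw [← sub_eq_zero]
  ext k
  have h := trunc_H h1S he (max (max N 1) k) (by omega)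
  rw [hA _ (by omega), hB _ (by omega), X_pow_dvd_iff] at h
  rw [h k (by omega)]
  simp

end A

section B

variable {ι : Type} [Fintype ι] [DecidableEq ι]

theorem weight_eq (g : ι → ℕ) (y : ι →₀ ℕ) : Finsupp.weight g y = ∑ v, y v * g v := by
  rw [Finsupp.weight_apply, Finsupp.sum_fintype]
  · simp
  · simp

theorem weight_single (g : ι → ℕ) (v : ι) (k : ℕ) :
    Finsupp.weight g (Finsupp.single v k) = k * g v := by
  rw [Finsupp.weight_apply, Finsupp.sum_single_index] <;> simp

theorem partB (g : ι → ℕ) (a b p q : ℕ) (hg : ∀ v, 0 < g v) (ha : 0 < a) (hb : 0 < b)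
    (hcard : Fintype.card ι = p + q + 1) (hprod : ∏ v, g v = a ^ p * b ^ q)
    (hdiv : ∀ v, g v ∣ a ∨ g v ∣ b) (hA : #{v | g v ∣ a} = p + 1)
    (w0 : ι →₀ ℕ) (hw0 : Finsupp.weight g w0 = b) (hsupp : ∀ w, ¬ g w ∣ a → w0 w = 0)
    (hres : ∀ v0 : ι, ∀ c : ℕ, ∃ y : ι →₀ ℕ, Finsupp.weight g y ≡ c [MOD g v0]) :
    ∃ ρ : Finset ((ι →₀ ℕ) × (ι →₀ ℕ)), ρ.card + 1 = Fintype.card ι ∧
      addConGen (fun x y => (x, y) ∈ (ρ : Set ((ι →₀ ℕ) × (ι →₀ ℕ)))) =
        AddCon.ker (Finsupp.weight g : (ι →₀ ℕ) →+ ℕ) := by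
  have hne : ({v | g v ∣ a} : Finset ι).Nonempty := by
    rw [← Finset.card_pos]; omega
  obtain ⟨v0, hv0⟩ := hne
  have hv0 : g v0 ∣ a := by simpa using hv0
  set rel : ι → (ι →₀ ℕ) × (ι →₀ ℕ) := fun v =>
    if g v ∣ a then (Finsupp.single v (a / g v), Finsupp.single v0 (a / g v0))
    else (Finsupp.single v (b / g v), w0) with hrel
  have hapos : ∀ v, g v ∣ a → 0 < a / g v := fun v h =>
    Nat.div_pos (Nat.le_of_dvd ha h) (hg v)
  have hbpos : ∀ v, ¬ g v ∣ a → 0 < b / g v := fun v h =>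
    Nat.div_pos (Nat.le_of_dvd hb ((hdiv v).resolve_left h)) (hg v)
  have hinj : Function.Injective rel := by
    intro v w h
    have h1 : (rel v).1 = (rel w).1 := by rw [h]
    by_contra hvw
    have h2 : (rel v).1 v = (rel w).1 v := by rw [h1]
    have h3 : (rel w).1 v = 0 := by
      simp only [hrel]
      split_ifs
      · simp [Finsupp.single_apply, Ne.symm hvw]
      · simp [Finsupp.single_apply, Ne.symm hvw]
    have h4 : (rel v).1 v ≠ 0 := by
      simp only [hrel]
      split_ifs with h5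
      · simpa using (hapos v h5).ne'
      · simpa using (hbpos v h5).ne'
    exact h4 (h2.trans h3)
  set ρ : Finset ((ι →₀ ℕ) × (ι →₀ ℕ)) := (univ.erase v0).image rel with hρ
  refine ⟨ρ, ?_, ?_⟩
  · rw [hρ, Finset.card_image_of_injective _ hinj, Finset.card_erase_of_mem (Finset.mem_univ _),
      Finset.card_univ]
    omega
  set con : AddCon (ι →₀ ℕ) :=
    addConGen (fun x y => (x, y) ∈ (ρ : Set ((ι →₀ ℕ) × (ι →₀ ℕ)))) with hcon
  have hmemρ : ∀ v, v ≠ v0 → con (rel v).1 (rel v).2 := by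
    intro v hv
    apply AddConGen.Rel.of
    simp only [Finset.mem_coe, hρ, Finset.mem_image]
    exact ⟨v, by simp [hv], rfl⟩
  have hle : con ≤ AddCon.ker (Finsupp.weight g : (ι →₀ ℕ) →+ ℕ) := by
    rw [hcon, AddCon.addConGen_le]
    intro x y hxy
    simp only [Finset.mem_coe, hρ, Finset.mem_image] at hxy
    obtain ⟨v, -, hv⟩ := hxy
    have h1 : x = (rel v).1 := by rw [hv]
    have h2 : y = (rel v).2 := by rw [hv]
    rw [AddCon.ker_rel, h1, h2]
    simp only [hrel]
    split_ifs with h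
    · rw [weight_single, weight_single, Nat.div_mul_cancel h, Nat.div_mul_cancel hv0]
    · rw [weight_single, Nat.div_mul_cancel ((hdiv v).resolve_left h), hw0]
  -- the number of reduced vectors
  set bd : ι → ℕ := fun v => if v = v0 then 1 else if g v ∣ a then a / g v else b / g v with hbd
  have hcA : #{v ∈ univ.erase v0 | g v ∣ a} = p := by
    have : ({v ∈ univ.erase v0 | g v ∣ a} : Finset ι) = ({v | g v ∣ a} : Finset ι).erase v0 := by
      ext v; simp [and_comm]
    rw [this, Finset.card_erase_of_mem (by simpa using hv0), hA]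
    omega
  have hcB : #{v ∈ univ.erase v0 | ¬ g v ∣ a} = q := by
    have h1 := Finset.card_filter_add_card_filter_not (s := univ.erase v0) (fun v => g v ∣ a)
    rw [hcA, Finset.card_erase_of_mem (Finset.mem_univ _), Finset.card_univ] at h1
    omega
  have hcount : ∏ v, bd v = g v0 := by
    have h1 : ∏ v ∈ univ.erase v0, bd v * g v = a ^ p * b ^ q := by
      have : ∀ v ∈ univ.erase v0, bd v * g v = if g v ∣ a then a else b := by
        intro v hv
        have hv' : v ≠ v0 := by simpa using hv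
        simp only [hbd, if_neg hv']
        split_ifs with h
        · exact Nat.div_mul_cancel h
        · exact Nat.div_mul_cancel ((hdiv v).resolve_left h)
      rw [Finset.prod_congr rfl this, Finset.prod_ite, Finset.prod_const, Finset.prod_const,
        hcA, hcB]
    rw [Finset.prod_mul_distrib] at h1
    have h2 : ∏ v, g v = g v0 * ∏ v ∈ univ.erase v0, g v :=
      (Finset.mul_prod_erase _ _ (Finset.mem_univ _)).symm
    have h3 : ∏ v, bd v = bd v0 * ∏ v ∈ univ.erase v0, bd v :=
      (Finset.mul_prod_erase _ _ (Finset.mem_univ _)).symm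
    have h4 : bd v0 = 1 := by simp [hbd]
    rw [h3, h4, one_mul]
    have h5 : 0 < ∏ v ∈ univ.erase v0, g v := Finset.prod_pos fun v _ => hg v
    apply Nat.eq_of_mul_eq_mul_right h5
    rw [h1, ← hprod, h2]
  -- normal forms
  have split : ∀ (y : ι →₀ ℕ) (v : ι) (k : ℕ), k ≤ y v →
      ∃ z : ι →₀ ℕ, y = Finsupp.single v k + z := by
    intro y v k hk
    refine ⟨y - Finsupp.single v k, ?_⟩
    ext w
    simp only [Finsupp.add_apply, Finsupp.tsub_apply, Finsupp.single_apply]
    split_ifs with h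
    · subst h; omega
    · omega
  set W : Finset ι := {v | ¬ g v ∣ a} with hW
  set U : Finset ι := ({v | g v ∣ a} : Finset ι).erase v0 with hU
  have st1 : ∀ n : ℕ, ∀ y : ι →₀ ℕ, ∑ v ∈ W, y v = n →
      ∃ r : ι →₀ ℕ, con y r ∧ ∀ w ∈ W, r w < b / g w := by
    intro n
    induction n using Nat.strong_induction_on with
    | _ n ih =>
      intro y hy
      by_cases h : ∀ w ∈ W, y w < b / g w
      · exact ⟨y, con.refl y, h⟩
      · push Not at h
        obtain ⟨w, hwW, hw⟩ := h
        have hwa : ¬ g w ∣ a := by simpa [hW] using hwW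
        obtain ⟨z, hz⟩ := split y w _ hw
        have hwv : w ≠ v0 := by rintro rfl; exact hwa hv0
        have h1 : con (Finsupp.single w (b / g w)) w0 := by
          have := hmemρ w hwv
          simpa only [hrel, if_neg hwa] using this
        have h2 : con y (w0 + z) := by
          rw [hz]; exact con.add h1 (con.refl z)
        have h3 : ∑ v ∈ W, (w0 + z) v = ∑ v ∈ W, z v := by
          apply Finset.sum_congr rfl
          intro v hv
          rw [Finsupp.add_apply, hsupp v (by simpa [hW] using hv), zero_add]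
        have h4 : ∑ v ∈ W, y v = b / g w + ∑ v ∈ W, z v := by
          rw [hz]
          simp only [Finsupp.add_apply, Finset.sum_add_distrib]
          congr 1
          rw [Finset.sum_eq_single w]
          · simp
          · intro v _ hv
            simp [Finsupp.single_apply, Ne.symm hv]
          · intro h; exact absurd hwW h
        have hpos := hbpos w hwa
        obtain ⟨r, hr, hr'⟩ := ih (∑ v ∈ W, z v) (by omega) (w0 + z) h3
        exact ⟨r, con.trans h2 hr, hr'⟩
  have st2 : ∀ n : ℕ, ∀ y : ι →₀ ℕ, (∀ w ∈ W, y w < b / g w) → ∑ v ∈ U, y v = n →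
      ∃ r : ι →₀ ℕ, con y r ∧ (∀ w ∈ W, r w < b / g w) ∧ ∀ v ∈ U, r v < a / g v := by
    intro n
    induction n using Nat.strong_induction_on with
    | _ n ih =>
      intro y hyW hy
      by_cases h : ∀ v ∈ U, y v < a / g v
      · exact ⟨y, con.refl y, hyW, h⟩
      · push Not at h
        obtain ⟨w, hwU, hw⟩ := h
        have hwa : g w ∣ a ∧ w ≠ v0 := by
          simp only [hU, Finset.mem_erase, Finset.mem_filter, Finset.mem_univ, true_and] at hwU
          exact ⟨hwU.2, hwU.1⟩
        obtain ⟨z, hz⟩ := split y w _ hw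
        have h1 : con (Finsupp.single w (a / g w)) (Finsupp.single v0 (a / g v0)) := by
          have := hmemρ w hwa.2
          simpa only [hrel, if_pos hwa.1] using this
        have h2 : con y (Finsupp.single v0 (a / g v0) + z) := by
          rw [hz]; exact con.add h1 (con.refl z)
        have h3 : ∑ v ∈ U, (Finsupp.single v0 (a / g v0) + z) v = ∑ v ∈ U, z v := by
          apply Finset.sum_congr rfl
          intro v hv
          have : v ≠ v0 := by
            simp only [hU, Finset.mem_erase] at hv; exact hv.1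
          rw [Finsupp.add_apply, Finsupp.single_apply, if_neg (Ne.symm this), zero_add]
        have h4 : ∑ v ∈ U, y v = a / g w + ∑ v ∈ U, z v := by
          rw [hz]
          simp only [Finsupp.add_apply, Finset.sum_add_distrib]
          congr 1
          rw [Finset.sum_eq_single w]
          · simp
          · intro v _ hv
            simp [Finsupp.single_apply, Ne.symm hv]
          · intro h; exact absurd hwU h
        have h5 : ∀ v ∈ W, (Finsupp.single v0 (a / g v0) + z) v < b / g v := by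
          intro v hv
          have hva : ¬ g v ∣ a := by simpa [hW] using hv
          have e1 : v ≠ v0 := by rintro rfl; exact hva hv0
          have e2 : v ≠ w := by rintro rfl; exact hva hwa.1
          have e3 := hyW v hv
          rw [hz, Finsupp.add_apply, Finsupp.single_apply, if_neg (Ne.symm e2)] at e3
          rw [Finsupp.add_apply, Finsupp.single_apply, if_neg (Ne.symm e1)]
          exact e3
        have hpos := hapos w hwa.1
        obtain ⟨r, hr, hr', hr''⟩ := ih (∑ v ∈ U, z v) (by omega) _ h5 h3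
        exact ⟨r, con.trans h2 hr, hr', hr''⟩
  have nf : ∀ y : ι →₀ ℕ, ∃ r : ι →₀ ℕ, con y r ∧ ∀ v, v ≠ v0 → r v < bd v := by
    intro y
    obtain ⟨r1, h1, h2⟩ := st1 _ y rfl
    obtain ⟨r, h3, h4, h5⟩ := st2 _ r1 h2 rfl
    refine ⟨r, con.trans h1 h3, ?_⟩
    intro v hv
    simp only [hbd, if_neg hv]
    split_ifs with h
    · exact h5 v (by simp [hU, hv, h])
    · exact h4 v (by simp [hW, h])
  -- uniqueness of normal forms
  set box : Finset (ι → ℕ) := Fintype.piFinset fun v => range (bd v) with hbox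
  have hboxcard : box.card = g v0 := by
    rw [hbox, Fintype.card_piFinset]
    simpa using hcount
  set cut : (ι →₀ ℕ) → (ι → ℕ) := fun r v => if v = v0 then 0 else r v with hcut
  have hcutbox : ∀ r : ι →₀ ℕ, (∀ v, v ≠ v0 → r v < bd v) → cut r ∈ box := by
    intro r hr
    rw [hbox, Fintype.mem_piFinset]
    intro v
    rw [Finset.mem_range]
    by_cases h : v = v0
    · simp [hcut, hbd, h]
    · simp only [hcut, if_neg h]; exact hr v h
  have hcutw : ∀ r : ι →₀ ℕ, Finsupp.weight g r = ∑ v, cut r v * g v + r v0 * g v0 := by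
    intro r
    rw [weight_eq]
    rw [← Finset.add_sum_erase univ (fun v => r v * g v) (Finset.mem_univ v0),
      ← Finset.add_sum_erase univ (fun v => cut r v * g v) (Finset.mem_univ v0)]
    have e1 : cut r v0 = 0 := by simp [hcut]
    have e2 : ∑ v ∈ univ.erase v0, cut r v * g v = ∑ v ∈ univ.erase v0, r v * g v := by
      apply Finset.sum_congr rfl
      intro v hv
      have : v ≠ v0 := by simpa using hv
      simp [hcut, this]
    rw [e1, e2]; ring
  set ψ : (ι → ℕ) → ℕ := fun f => (∑ v, f v * g v) % g v0 with hψ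
  have hsurj : Set.SurjOn ψ (box : Set (ι → ℕ)) (range (g v0) : Set ℕ) := by
    intro c hc
    have hc : c < g v0 := by simpa using hc
    obtain ⟨y, hy⟩ := hres v0 c
    obtain ⟨r, hr, hr'⟩ := nf y
    refine ⟨cut r, hcutbox r hr', ?_⟩
    have h1 : Finsupp.weight g y = Finsupp.weight g r := hle hr
    rw [h1, hcutw] at hy
    have h2 : ∑ v, cut r v * g v ≡ c [MOD g v0] := by
      refine Nat.ModEq.trans ?_ hy
      exact (Nat.ModEq.symm (by
        simpa using (Nat.ModEq.refl (n := g v0) (∑ v, cut r v * g v)).add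
          ((Nat.modEq_zero_iff_dvd).2 (Dvd.intro_left (r v0) rfl))))
    have h3 : (∑ v, cut r v * g v) % g v0 = c % g v0 := h2
    rw [Nat.mod_eq_of_lt hc] at h3
    exact h3
  have hinjOn : Set.InjOn ψ (box : Set (ι → ℕ)) := by
    apply Finset.injOn_of_surjOn_of_card_le (s := box) (t := range (g v0)) ψ
    · intro f _
      simpa [hψ] using Nat.mod_lt _ (hg v0)
    · exact hsurj
    · rw [hboxcard, Finset.card_range]
  have huniq : ∀ r r' : ι →₀ ℕ, (∀ v, v ≠ v0 → r v < bd v) → (∀ v, v ≠ v0 → r' v < bd v) →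
      Finsupp.weight g r = Finsupp.weight g r' → r = r' := by
    intro r r' hr hr' h
    have h1 : ψ (cut r) = ψ (cut r') := by
      have e1 := hcutw r
      have e2 := hcutw r'
      have e3 : ∀ x : ι →₀ ℕ, ψ (cut x) = Finsupp.weight g x % g v0 := by
        intro x
        rw [hcutw x]; simp [hψ]
      rw [e3, e3, h]
    have h2 : cut r = cut r' := hinjOn (hcutbox r hr) (hcutbox r' hr') h1
    have h3 : r v0 * g v0 = r' v0 * g v0 := by
      have e1 := hcutw r
      have e2 := hcutw r'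
      rw [h2] at e1
      omega
    have h4 : r v0 = r' v0 := Nat.eq_of_mul_eq_mul_right (hg v0) h3
    ext v
    by_cases hv : v = v0
    · rw [hv, h4]
    · have := congrFun h2 v
      simpa [hcut, hv] using this
  apply le_antisymm hle
  intro x y hxy
  rw [AddCon.ker_rel] at hxy
  obtain ⟨r, hr, hr'⟩ := nf x
  obtain ⟨s, hs, hs'⟩ := nf y
  have h1 : Finsupp.weight g x = Finsupp.weight g r := hle hr
  have h2 : Finsupp.weight g y = Finsupp.weight g s := hle hs
  have h3 : r = s := huniq r s hr' hs' (by rw [← h1, ← h2, hxy])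
  subst h3
  exact con.trans hr (con.symm hs)

/-- Every presentation has at least `card ι - 1` elements. -/
theorem lower (g : ι → ℕ) (hg : ∀ v, 0 < g v) (v0 : ι)
    (ρ : Set ((ι →₀ ℕ) × (ι →₀ ℕ))) (hfin : ρ.Finite)
    (h : addConGen (fun x y => (x, y) ∈ ρ) = AddCon.ker (Finsupp.weight g : (ι →₀ ℕ) →+ ℕ)) :
    Fintype.card ι ≤ ρ.ncard + 1 := by
  classical
  set D : (ι →₀ ℕ) → (ι → ℚ) := fun y v => (y v : ℚ) with hD
  have hDadd : ∀ x y, D (x + y) = D x + D y := by
    intro x y; ext v; simp [hD]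
  set T : Set (ι → ℚ) := (fun z : (ι →₀ ℕ) × (ι →₀ ℕ) => D z.1 - D z.2) '' ρ with hT
  set L : Submodule ℚ (ι → ℚ) := Submodule.span ℚ T with hL
  let con' : AddCon (ι →₀ ℕ) :=
    { r := fun x y => D x - D y ∈ L
      iseqv := ⟨fun x => by simp, fun {x y} h => by
          have := L.neg_mem h; simpa using this, fun {x y z} h1 h2 => by
          have := L.add_mem h1 h2; simpa using this⟩
      add' := fun {x y z w} h1 h2 => by
          have := L.add_mem h1 h2
          show D (x + z) - D (y + w) ∈ L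
          rw [hDadd, hDadd]
          have e : D x + D z - (D y + D w) = D x - D y + (D z - D w) := by abel
          rw [e]; exact this }
  have hle : addConGen (fun x y => (x, y) ∈ ρ) ≤ con' := by
    rw [AddCon.addConGen_le]
    intro x y hxy
    exact Submodule.subset_span ⟨(x, y), hxy, rfl⟩
  rw [h] at hle
  have hkey : ∀ v, (g v : ℚ) • (Pi.single v0 1 : ι → ℚ) - (g v0 : ℚ) • Pi.single v 1 ∈ L := by
    intro v
    have h1 : AddCon.ker (Finsupp.weight g : (ι →₀ ℕ) →+ ℕ)
        (Finsupp.single v0 (g v)) (Finsupp.single v (g v0)) := by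
      rw [AddCon.ker_rel, weight_single, weight_single, mul_comm]
    have h2 : D (Finsupp.single v0 (g v)) - D (Finsupp.single v (g v0)) ∈ L := hle h1
    convert h2 using 2
    · ext w
      simp only [hD, Finsupp.single_apply, Pi.smul_apply, Pi.single_apply, smul_eq_mul]
      by_cases hw : w = v0
      · simp [hw]
      · simp [hw, Ne.symm hw]
    · ext w
      simp only [hD, Finsupp.single_apply, Pi.smul_apply, Pi.single_apply, smul_eq_mul]
      by_cases hw : w = v
      · simp [hw]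
      · simp [hw, Ne.symm hw]
  have htop : (⊤ : Submodule ℚ (ι → ℚ)) ≤ L ⊔ Submodule.span ℚ {(Pi.single v0 1 : ι → ℚ)} := by
    have hs : ∀ v, (Pi.single v 1 : ι → ℚ) ∈ L ⊔ Submodule.span ℚ {(Pi.single v0 1 : ι → ℚ)} := by
      intro v
      have h1 : (Pi.single v0 1 : ι → ℚ) ∈ L ⊔ Submodule.span ℚ {(Pi.single v0 1 : ι → ℚ)} :=
        Submodule.mem_sup_right (Submodule.mem_span_singleton_self _)
      have h2 := Submodule.mem_sup_left (T := Submodule.span ℚ {(Pi.single v0 1 : ι → ℚ)}) (hkey v)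
      have h3 := Submodule.sub_mem _ (Submodule.smul_mem _ (g v : ℚ) h1) h2
      have h4 : (g v : ℚ) • (Pi.single v0 1 : ι → ℚ) -
          ((g v : ℚ) • (Pi.single v0 1 : ι → ℚ) - (g v0 : ℚ) • Pi.single v 1) =
          (g v0 : ℚ) • Pi.single v 1 := by abel
      rw [h4] at h3
      have h5 := Submodule.smul_mem _ ((g v0 : ℚ)⁻¹) h3
      rw [smul_smul, inv_mul_cancel₀ (by exact_mod_cast (hg v0).ne'), one_smul] at h5
      exact h5
    intro f _
    have : f = ∑ v, f v • (Pi.single v 1 : ι → ℚ) := by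
      ext w
      simp [Finset.sum_apply, Pi.single_apply]
    rw [this]
    exact Submodule.sum_mem _ fun v _ => Submodule.smul_mem _ _ (hs v)
  have h1 : Module.finrank ℚ (⊤ : Submodule ℚ (ι → ℚ)) = Fintype.card ι := by
    rw [finrank_top, Module.finrank_fintype_fun_eq_card]
  have h2 := Submodule.finrank_mono htop
  have h3 := Submodule.finrank_add_le_finrank_add_finrank L
    (Submodule.span ℚ {(Pi.single v0 1 : ι → ℚ)})
  have hTfin : T.Finite := hfin.image _
  have h4 : Module.finrank ℚ L ≤ T.ncard := by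
    haveI := hTfin.fintype
    have := finrank_span_le_card (R := ℚ) T
    rw [Set.ncard_eq_toFinset_card' T]
    exact this
  have h5 : T.ncard ≤ ρ.ncard := Set.ncard_image_le hfin
  have h6 : Module.finrank ℚ (Submodule.span ℚ {(Pi.single v0 1 : ι → ℚ)}) ≤ 1 := by
    have := finrank_span_le_card (R := ℚ) ({(Pi.single v0 1 : ι → ℚ)} : Set (ι → ℚ))
    simpa using this
  omega

end B


section C

variable {ι : Type} [Fintype ι] [DecidableEq ι]

open PowerSeries in
/-- generating function of the number of factorizations -/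
noncomputable def genF (g : ι → ℕ) : PowerSeries ℤ :=
  ∏ v, PowerSeries.mk fun k => if g v ∣ k then 1 else 0

open PowerSeries in
theorem genF_mul (g : ι → ℕ) (hg : ∀ v, 0 < g v) : genF g * ∏ v, (1 - X ^ g v) = 1 := by
  rw [genF, ← Finset.prod_mul_distrib]
  apply Finset.prod_eq_one
  intro v _
  ext n
  rw [mul_sub, mul_one, map_sub, coeff_mul_X_pow', coeff_mk, coeff_one]
  by_cases hn : n = 0
  · subst hn
    have := hg v
    simp; omega
  · rw [if_neg hn]
    by_cases hd : g v ∣ n
    · have h1 : g v ≤ n := Nat.le_of_dvd (Nat.pos_of_ne_zero hn) hd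
      rw [if_pos hd, if_pos h1, coeff_mk, if_pos (Nat.dvd_sub hd dvd_rfl)]
      ring
    · rw [if_neg hd]
      split_ifs with h1
      · rw [coeff_mk, if_neg]
        · ring
        · intro h2
          exact hd ((Nat.dvd_sub_iff_left h1 dvd_rfl).1 h2)
      · ring

/-- the factorizations of `s` -/
noncomputable def Z (g : ι → ℕ) (s : ℕ) : Finset (ι →₀ ℕ) :=
  ((finsuppAntidiag univ s).filter fun l => ∀ v, g v ∣ l v).image
    fun l => Finsupp.equivFunOnFinite.symm fun v => l v / g v

theorem mem_Z (g : ι → ℕ) (hg : ∀ v, 0 < g v) (s : ℕ) (y : ι →₀ ℕ) :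
    y ∈ Z g s ↔ Finsupp.weight g y = s := by
  rw [Z, Finset.mem_image]
  constructor
  · rintro ⟨l, hl, rfl⟩
    rw [Finset.mem_filter, Finset.mem_finsuppAntidiag] at hl
    rw [weight_eq]
    have : ∀ v, (Finsupp.equivFunOnFinite.symm fun v => l v / g v) v * g v = l v := by
      intro v
      simpa using Nat.div_mul_cancel (hl.2 v)
    rw [Finset.sum_congr rfl fun v _ => this v]
    exact hl.1.1
  · intro h
    refine ⟨Finsupp.equivFunOnFinite.symm fun v => y v * g v, ?_, ?_⟩
    · rw [Finset.mem_filter, Finset.mem_finsuppAntidiag]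
      refine ⟨⟨?_, by simp⟩, ?_⟩
      · rw [← h, weight_eq]; simp
      · intro v; simp
    · ext v
      simp [Nat.mul_div_cancel _ (hg v)]

open PowerSeries in
theorem coeff_genF (g : ι → ℕ) (hg : ∀ v, 0 < g v) (s : ℕ) :
    coeff s (genF g) = (Z g s).card := by
  rw [genF, coeff_prod]
  have h1 : ∀ l ∈ finsuppAntidiag univ s,
      ∏ i ∈ (univ : Finset ι), coeff (l i) (PowerSeries.mk fun k => if g i ∣ k then (1 : ℤ) else 0)
        = if (∀ v, g v ∣ l v) then 1 else 0 := by
    intro l _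
    split_ifs with h
    · apply Finset.prod_eq_one
      intro i _
      rw [coeff_mk, if_pos (h i)]
    · push Not at h
      obtain ⟨v, hv⟩ := h
      apply Finset.prod_eq_zero (Finset.mem_univ v)
      rw [coeff_mk, if_neg hv]
  rw [Finset.sum_congr rfl h1, ← Finset.sum_filter, Finset.sum_const, Z, Finset.card_image_of_injOn]
  · simp
  · intro l hl l' hl' h
    rw [Finset.mem_coe, Finset.mem_filter] at hl hl'
    ext v
    have h2 := DFunLike.congr_fun h v
    simp only [Finsupp.equivFunOnFinite_symm_apply_apply] at h2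
    rw [← Nat.div_mul_cancel (hl.2 v), ← Nat.div_mul_cancel (hl'.2 v), h2]

end C


section D

variable {S : AddSubmonoid ℕ}

theorem conductor (hS : ((S : Set ℕ)ᶜ).Finite) : ∃ c, 1 ≤ c ∧ ∀ n, c ≤ n → n ∈ S := by
  obtain ⟨N, hN⟩ := hS.bddAbove
  refine ⟨N + 1, by omega, ?_⟩
  intro n hn
  by_contra h
  have := hN (show n ∈ ((S : Set ℕ)ᶜ) from h)
  omega

theorem minGens_finite (hS : ((S : Set ℕ)ᶜ).Finite) : (minGens S).Finite := by
  obtain ⟨c, hc, h⟩ := conductor hS
  apply (Finset.range (2 * c)).finite_toSet.subset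
  intro n hn
  rw [Finset.mem_coe, Finset.mem_range]
  by_contra h2
  exact hn.2.2 c (h c le_rfl) (n - c) (h _ (by omega)) (by omega) (by omega) (by omega)

theorem exists_weight (n : ℕ) (hn : n ∈ S) :
    ∃ y : minGens S →₀ ℕ, Finsupp.weight (fun v : minGens S => (v : ℕ)) y = n := by
  induction n using Nat.strong_induction_on with
  | _ n ih =>
    by_cases h0 : n = 0
    · exact ⟨0, by simp [h0]⟩
    by_cases hm : n ∈ minGens S
    · refine ⟨Finsupp.single ⟨n, hm⟩ 1, ?_⟩
      rw [Finsupp.weight_single]; simp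
    · have : ∃ x ∈ S, ∃ y ∈ S, x ≠ 0 ∧ y ≠ 0 ∧ x + y = n := by
        by_contra hh
        push Not at hh
        exact hm ⟨hn, h0, fun x hx y hy h1 h2 => hh x hx y hy h1 h2⟩
      obtain ⟨x, hx, y, hy, hx0, hy0, hxy⟩ := this
      obtain ⟨u, hu⟩ := ih x (by omega) hx
      obtain ⟨w, hw⟩ := ih y (by omega) hy
      exact ⟨u + w, by rw [map_add, hu, hw, hxy]⟩

theorem weight_mem (y : minGens S →₀ ℕ) :
    Finsupp.weight (fun v : minGens S => (v : ℕ)) y ∈ S := by
  rw [Finsupp.weight_apply]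
  apply AddSubmonoid.sum_mem
  intro v _
  exact AddSubmonoid.nsmul_mem _ v.2.1 _

theorem one_not_mem {a b : ℕ} (h1 : ¬ leS S a b) (h2 : ¬ leS S b a) : 1 ∉ S := by
  intro h
  have hall : ∀ n, n ∈ S := by
    intro n
    have := AddSubmonoid.nsmul_mem S h n
    simpa using this
  rcases le_total a b with hab | hab
  · exact h1 ⟨b - a, hall _, by omega⟩
  · exact h2 ⟨a - b, hall _, by omega⟩

end D

section Epoly

open Polynomial

variable {S : AddSubmonoid ℕ}

theorem P_poly (hS : ((S : Set ℕ)ᶜ).Finite) :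
    ∃ Q : ℤ[X], (Q : PowerSeries ℤ) = P S ∧ Q.eval 1 = 1 := by
  refine ⟨1 - (1 - X) * ∑ k ∈ hS.toFinset, X ^ k, ?_, ?_⟩
  · have h1 : hilb S = PowerSeries.mk (fun _ => (1 : ℤ)) - ∑ k ∈ hS.toFinset, PowerSeries.X ^ k := by
      ext n
      rw [map_sub, map_sum, hilb, PowerSeries.coeff_mk, PowerSeries.coeff_mk]
      simp only [PowerSeries.coeff_X_pow]
      rw [Finset.sum_ite_eq]
      by_cases hn : n ∈ S
      · have : n ∉ hS.toFinset := by simp [hn]
        rw [if_pos hn, if_neg this]; ring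
      · have : n ∈ hS.toFinset := by simp [hn]
        rw [if_neg hn, if_pos this]; ring
    have h2 : (1 - PowerSeries.X : PowerSeries ℤ) * PowerSeries.mk (fun _ => (1 : ℤ)) = 1 := by
      rw [mul_comm]; exact PowerSeries.mk_one_mul_one_sub_eq_one ℤ
    rw [P, h1, mul_sub, h2]
    have h3 : ((∑ k ∈ hS.toFinset, X ^ k : ℤ[X]) : PowerSeries ℤ)
        = ∑ k ∈ hS.toFinset, PowerSeries.X ^ k := by
      have := map_sum (Polynomial.coeToPowerSeries.ringHom (R := ℤ))
        (fun k => (X ^ k : ℤ[X])) hS.toFinset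
      rw [Polynomial.coeToPowerSeries.ringHom_apply] at this
      rw [this]
      apply Finset.sum_congr rfl
      intro k _
      rw [Polynomial.coeToPowerSeries.ringHom_apply, Polynomial.coe_pow, Polynomial.coe_X]
    rw [Polynomial.coe_sub, Polynomial.coe_one, Polynomial.coe_mul, Polynomial.coe_sub,
      Polynomial.coe_one, Polynomial.coe_X, h3]
  · simp

/-- The identity as an identity of polynomials. -/
theorem poly_id (Q : ℤ[X]) (hQ : (Q : PowerSeries ℤ) = P S) {a b a1 b1 a2 b2 : ℕ} (G : Finset ℕ)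
    (h : hilb S * ((∏ v ∈ G, (1 - PowerSeries.X ^ v)) *
      ((1 - PowerSeries.X ^ a) ^ a1 * (1 - PowerSeries.X ^ b) ^ b1))
      = (1 - PowerSeries.X ^ a) ^ a2 * (1 - PowerSeries.X ^ b) ^ b2) :
    Q * ((∏ v ∈ G, (1 - X ^ v)) * ((1 - X ^ a) ^ a1 * (1 - X ^ b) ^ b1))
      = (1 - X) * ((1 - X ^ a) ^ a2 * (1 - X ^ b) ^ b2) := by
  apply Polynomial.coe_injective
  have hX : ∀ n : ℕ, ((1 - X ^ n : ℤ[X]) : PowerSeries ℤ) = 1 - PowerSeries.X ^ n := by
    intro n
    rw [Polynomial.coe_sub, Polynomial.coe_one, Polynomial.coe_pow, Polynomial.coe_X]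
  have hprod : ((∏ v ∈ G, (1 - X ^ v) : ℤ[X]) : PowerSeries ℤ)
      = ∏ v ∈ G, (1 - PowerSeries.X ^ v) := by
    have := map_prod (Polynomial.coeToPowerSeries.ringHom (R := ℤ))
        (fun k => (1 - X ^ k : ℤ[X])) G
    rw [Polynomial.coeToPowerSeries.ringHom_apply] at this
    rw [this]
    apply Finset.prod_congr rfl
    intro k _
    rw [Polynomial.coeToPowerSeries.ringHom_apply, hX]
  rw [Polynomial.coe_mul, Polynomial.coe_mul, Polynomial.coe_mul, Polynomial.coe_pow,
    Polynomial.coe_pow, hX, hX, hprod, hQ, Polynomial.coe_mul, Polynomial.coe_mul,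
    Polynomial.coe_pow, Polynomial.coe_pow, hX, hX, Polynomial.coe_sub, Polynomial.coe_one,
    Polynomial.coe_X, ← h, P]
  ring

theorem root_arg (Q : ℤ[X]) {a b a1 b1 a2 b2 : ℕ} (G : Finset ℕ)
    (h : Q * ((∏ v ∈ G, (1 - X ^ v)) * ((1 - X ^ a) ^ a1 * (1 - X ^ b) ^ b1))
      = (1 - X) * ((1 - X ^ a) ^ a2 * (1 - X ^ b) ^ b2)) (n : ℕ) (hn : 2 ≤ n)
    (hz : n ∈ G ∨ (n = a ∧ a1 ≠ 0) ∨ (n = b ∧ b1 ≠ 0)) :
    (a2 ≠ 0 ∧ n ∣ a) ∨ (b2 ≠ 0 ∧ n ∣ b) := by
  have hζ : IsPrimitiveRoot (Complex.exp (2 * Real.pi * Complex.I / n)) n :=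
    Complex.isPrimitiveRoot_exp n (by omega)
  set ζ := Complex.exp (2 * Real.pi * Complex.I / n) with hζd
  have h1 := congrArg (Polynomial.aeval ζ) h
  simp only [map_mul, map_prod, map_sub, map_pow, map_one, Polynomial.aeval_X] at h1
  have h2 : (∏ v ∈ G, (1 - ζ ^ v)) * ((1 - ζ ^ a) ^ a1 * (1 - ζ ^ b) ^ b1) = 0 := by
    have e0 : 1 - ζ ^ n = 0 := by rw [hζ.pow_eq_one, sub_self]
    rcases hz with hz | ⟨rfl, hz⟩ | ⟨rfl, hz⟩
    · rw [Finset.prod_eq_zero hz e0, zero_mul]
    · rw [e0, zero_pow hz, zero_mul, mul_zero]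
    · rw [e0, zero_pow hz, mul_zero, mul_zero]
  rw [h2, mul_zero] at h1
  have h3 := h1.symm
  rw [mul_eq_zero, mul_eq_zero] at h3
  rcases h3 with h3 | h3 | h3
  · exfalso
    have : ζ = 1 := by rw [sub_eq_zero] at h3; exact h3.symm
    exact hζ.ne_one (by omega) this
  · left
    have ha2 : a2 ≠ 0 := by rintro rfl; simp at h3
    refine ⟨ha2, ?_⟩
    have := (pow_eq_zero_iff ha2).1 h3
    rw [← hζ.pow_eq_one_iff_dvd]
    exact (sub_eq_zero.1 this).symm
  · right
    have hb2 : b2 ≠ 0 := by rintro rfl; simp at h3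
    refine ⟨hb2, ?_⟩
    have := (pow_eq_zero_iff hb2).1 h3
    rw [← hζ.pow_eq_one_iff_dvd]
    exact (sub_eq_zero.1 this).symm

theorem card_prod (Q : ℤ[X]) (hQ1 : Q.eval 1 = 1) {a b p q : ℕ} (ha : 0 < a) (hb : 0 < b)
    (G : Finset ℕ) (hG : ∀ v ∈ G, 0 < v)
    (h : Q * (∏ v ∈ G, (1 - X ^ v)) = (1 - X) * ((1 - X ^ a) ^ p * (1 - X ^ b) ^ q)) :
    G.card = p + q + 1 ∧ ∏ v ∈ G, v = a ^ p * b ^ q := by
  have hgeo : ∀ n : ℕ, (1 - X ^ n : ℤ[X]) = (1 - X) * ∑ i ∈ range n, X ^ i := fun n =>
    (mul_neg_geom_sum X n).symm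
  have hev : ∀ n : ℕ, (∑ i ∈ range n, X ^ i : ℤ[X]).eval 1 = n := by
    intro n
    simp [Polynomial.eval_finsetSum]
  have h1 : (1 - X : ℤ[X]) ^ G.card * (Q * ∏ v ∈ G, ∑ i ∈ range v, X ^ i)
      = (1 - X) ^ (p + q + 1) * ((∑ i ∈ range a, X ^ i) ^ p * (∑ i ∈ range b, X ^ i) ^ q) := by
    have e1 : ∏ v ∈ G, (1 - X ^ v : ℤ[X]) = (1 - X) ^ G.card * ∏ v ∈ G, ∑ i ∈ range v, X ^ i := by
      rw [Finset.prod_congr rfl fun v _ => hgeo v, Finset.prod_mul_distrib, Finset.prod_const]
    rw [e1, hgeo a, hgeo b, mul_pow, mul_pow] at h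
    calc (1 - X : ℤ[X]) ^ G.card * (Q * ∏ v ∈ G, ∑ i ∈ range v, X ^ i)
        = Q * ((1 - X) ^ G.card * ∏ v ∈ G, ∑ i ∈ range v, X ^ i) := by ring
      _ = _ := by rw [h]; ring
  have hne : (1 - X : ℤ[X]) ≠ 0 := by
    intro h0
    have := congrArg (Polynomial.eval 0) h0
    simp at this
  have hL : (Q * ∏ v ∈ G, ∑ i ∈ range v, X ^ i).eval 1 = ∏ v ∈ G, (v : ℤ) := by
    rw [Polynomial.eval_mul, hQ1, one_mul, Polynomial.eval_prod]
    exact Finset.prod_congr rfl fun v _ => hev v
  have hR : ((∑ i ∈ range a, X ^ i : ℤ[X]) ^ p * (∑ i ∈ range b, X ^ i) ^ q).eval 1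
      = (a : ℤ) ^ p * (b : ℤ) ^ q := by
    rw [Polynomial.eval_mul, Polynomial.eval_pow, Polynomial.eval_pow, hev, hev]
  have hLpos : (0 : ℤ) < ∏ v ∈ G, (v : ℤ) := Finset.prod_pos fun v hv => by
    exact_mod_cast hG v hv
  have hRpos : (0 : ℤ) < (a : ℤ) ^ p * (b : ℤ) ^ q := by positivity
  rcases lt_trichotomy G.card (p + q + 1) with hlt | heq | hgt
  · exfalso
    obtain ⟨k, hk⟩ := Nat.exists_eq_add_of_lt hlt
    rw [show p + q + 1 = G.card + (k + 1) by omega, pow_add, mul_assoc] at h1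
    have h2 := mul_left_cancel₀ (pow_ne_zero _ hne) h1
    have h3 := congrArg (Polynomial.eval 1) h2
    rw [hL, Polynomial.eval_mul, Polynomial.eval_pow] at h3
    simp only [Polynomial.eval_sub, Polynomial.eval_one, Polynomial.eval_X, sub_self] at h3
    rw [zero_pow (by omega), zero_mul] at h3
    omega
  · refine ⟨heq, ?_⟩
    rw [heq] at h1
    have h2 := mul_left_cancel₀ (pow_ne_zero _ hne) h1
    have h3 := congrArg (Polynomial.eval 1) h2
    rw [hL, hR] at h3
    apply Nat.cast_injective (R := ℤ)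
    push_cast
    exact h3
  · exfalso
    obtain ⟨k, hk⟩ := Nat.exists_eq_add_of_lt hgt
    rw [show G.card = (p + q + 1) + (k + 1) by omega, pow_add, mul_assoc] at h1
    have h2 := mul_left_cancel₀ (pow_ne_zero _ hne) h1
    have h3 := congrArg (Polynomial.eval 1) h2
    rw [hR, Polynomial.eval_mul, Polynomial.eval_pow] at h3
    simp only [Polynomial.eval_sub, Polynomial.eval_one, Polynomial.eval_X, sub_self] at h3
    rw [zero_pow (by omega), zero_mul] at h3
    omega

end Epoly

section G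

open PowerSeries

theorem coeff_lt (f : PowerSeries ℤ) {c k : ℕ} (hk : k < c) (m : ℕ) :
    coeff k (f * (1 - X ^ c) ^ m) = coeff k f := by
  induction m with
  | zero => simp
  | succ m ih =>
    rw [pow_succ, ← mul_assoc, mul_sub, mul_one, map_sub, ih, coeff_mul_X_pow',
      if_neg (by omega), sub_zero]

/-- the two sides of the defining congruence -/
noncomputable def sideA (S : AddSubmonoid ℕ) (e : ℕ → ℤ) (n : ℕ) : PowerSeries ℤ :=
  P S * ∏ j ∈ Icc 1 n, (1 - PowerSeries.X ^ j) ^ (-e j).toNat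

noncomputable def sideB (e : ℕ → ℤ) (n : ℕ) : PowerSeries ℤ :=
  ∏ j ∈ Icc 1 n, (1 - PowerSeries.X ^ j) ^ (e j).toNat

theorem coeff_zero_P (S : AddSubmonoid ℕ) : coeff 0 (P S) = 1 := by
  rw [P, coeff_zero_mul', coeff_zero_hilb]; simp

theorem coeff_zero_prod (k : ℕ → ℕ) (n : ℕ) :
    coeff 0 (∏ j ∈ Icc 1 n, (1 - X ^ j : PowerSeries ℤ) ^ k j) = 1 := by
  rw [coeff_zero_eq_constantCoeff_apply, map_prod]
  apply Finset.prod_eq_one
  intro j hj
  have : j ≠ 0 := by simp only [Finset.mem_Icc] at hj; omega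
  rw [← coeff_zero_eq_constantCoeff_apply]
  exact const_one_sub_pow this _

theorem sideA_succ (S : AddSubmonoid ℕ) (e : ℕ → ℤ) (n : ℕ) :
    sideA S e (n + 1) = sideA S e n * (1 - X ^ (n + 1)) ^ (-e (n + 1)).toNat := by
  rw [sideA, sideA, Finset.prod_Icc_succ_top (by omega), mul_assoc]

theorem sideB_succ (e : ℕ → ℤ) (n : ℕ) :
    sideB e (n + 1) = sideB e n * (1 - X ^ (n + 1)) ^ (e (n + 1)).toNat := by
  rw [sideB, sideB, Finset.prod_Icc_succ_top (by omega)]

theorem iff_rec (S : AddSubmonoid ℕ) (e : ℕ → ℤ) :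
    IsExponentSequence S e ↔ ∀ n, e (n + 1) = coeff (n + 1) (sideB e n - sideA S e n) := by
  have hstep : ∀ n, (X : PowerSeries ℤ) ^ (n + 1) ∣ sideA S e n - sideB e n →
      ((X : PowerSeries ℤ) ^ (n + 2) ∣ sideA S e (n + 1) - sideB e (n + 1) ↔
        e (n + 1) = coeff (n + 1) (sideB e n - sideA S e n)) := by
    intro n hn
    rw [X_pow_dvd_iff] at hn
    have hA0 : coeff 0 (sideA S e n) = 1 := by
      rw [sideA, coeff_zero_mul', coeff_zero_P, coeff_zero_prod]; norm_num
    have hB0 : coeff 0 (sideB e n) = 1 := coeff_zero_prod _ _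
    have htop : coeff (n + 1) (sideA S e (n + 1) - sideB e (n + 1)) =
        e (n + 1) - coeff (n + 1) (sideB e n - sideA S e n) := by
      rw [map_sub, sideA_succ, sideB_succ, coeff_self _ (by omega), coeff_self _ (by omega),
        hA0, hB0, map_sub]
      omega
    rw [X_pow_dvd_iff]
    constructor
    · intro h
      have := h (n + 1) (by omega)
      rw [htop] at this
      omega
    · intro h k hk
      rcases Nat.lt_or_ge k (n + 1) with h1 | h1
      · rw [map_sub, sideA_succ, sideB_succ, coeff_lt _ h1, coeff_lt _ h1, ← map_sub]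
        exact hn k h1
      · have : k = n + 1 := by omega
        rw [this, htop, h, sub_self]
  constructor
  · intro h n
    exact (hstep n (h n)).1 (h (n + 1))
  · intro h n
    induction n with
    | zero =>
      rw [X_pow_dvd_iff]
      intro k hk
      have : k = 0 := by omega
      subst this
      have e1 : Icc 1 0 = (∅ : Finset ℕ) := rfl
      rw [e1, Finset.prod_empty, Finset.prod_empty, mul_one, map_sub, coeff_zero_P]
      simp
    | succ n ih => exact (hstep n ih).2 (h n)

theorem side_congr (S : AddSubmonoid ℕ) (e e' : ℕ → ℤ) (n : ℕ)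
    (h : ∀ j, 1 ≤ j → j ≤ n → e j = e' j) : sideB e n - sideA S e n = sideB e' n - sideA S e' n := by
  have h1 : sideB e n = sideB e' n := by
    apply Finset.prod_congr rfl
    intro j hj
    rw [Finset.mem_Icc] at hj
    rw [h j hj.1 hj.2]
  have h2 : sideA S e n = sideA S e' n := by
    rw [sideA, sideA]
    congr 1
    apply Finset.prod_congr rfl
    intro j hj
    rw [Finset.mem_Icc] at hj
    rw [h j hj.1 hj.2]
  rw [h1, h2]

/-- Existence and uniqueness of the exponent sequence. -/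
theorem exists_unique_exponents (S : AddSubmonoid ℕ) :
    ∃! e : ℕ → ℤ, e 0 = 0 ∧ IsExponentSequence S e := by
  classical
  let F : ℕ → ℕ → ℤ := fun n => Nat.rec (fun _ => 0)
    (fun n f => Function.update f (n + 1) (coeff (n + 1) (sideB f n - sideA S f n))) n
  have F0 : F 0 = fun _ => 0 := rfl
  have Fs : ∀ n, F (n + 1) =
      Function.update (F n) (n + 1) (coeff (n + 1) (sideB (F n) n - sideA S (F n) n)) :=
    fun n => rfl
  have Fst : ∀ m j, j ≤ m → F m j = F j j := by
    intro m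
    induction m with
    | zero => intro j hj; have : j = 0 := by omega
              rw [this]
    | succ m ih =>
      intro j hj
      rcases Nat.lt_or_ge j (m + 1) with h | h
      · rw [Fs, Function.update_of_ne (by omega), ih j (by omega)]
      · have : j = m + 1 := by omega
        rw [this]
  refine ⟨fun n => F n n, ⟨by simp only [F0], ?_⟩, ?_⟩
  · rw [iff_rec]
    intro n
    show F (n + 1) (n + 1) = _
    rw [Fs, Function.update_self]
    congr 1
    exact side_congr S _ _ n fun j _ hj => Fst n j hj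
  · rintro e ⟨h0, he⟩
    rw [iff_rec] at he
    ext n
    induction n using Nat.strong_induction_on with
    | _ n ih =>
      rcases n with _ | n
      · rw [h0]; rfl
      · rw [he n]
        show _ = F (n + 1) (n + 1)
        rw [Fs, Function.update_self]
        congr 1
        apply side_congr S
        intro j _ hj
        rw [ih j (by omega)]
        exact (Fst n j hj).symm

end G

section F

variable {ι : Type} [Fintype ι] [DecidableEq ι] {S : AddSubmonoid ℕ}

theorem weight_memS (g : ι → ℕ) (hgS : ∀ v, g v ∈ S) (y : ι →₀ ℕ) : Finsupp.weight g y ∈ S := by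
  rw [Finsupp.weight_apply]
  apply AddSubmonoid.sum_mem
  intro v _
  exact AddSubmonoid.nsmul_mem _ (hgS v) _

theorem supp_genF (g : ι → ℕ) (hg : ∀ v, 0 < g v) (hgS : ∀ v, g v ∈ S) : Supp S (genF g) := by
  intro k hk
  rw [coeff_genF g hg]
  have : Z g k = ∅ := by
    rw [Finset.eq_empty_iff_forall_notMem]
    intro y hy
    rw [mem_Z g hg] at hy
    exact hk (hy ▸ weight_memS g hgS y)
  rw [this]; simp

theorem genF_zero (g : ι → ℕ) : PowerSeries.coeff 0 (genF g) = 1 := by
  rw [PowerSeries.coeff_zero_eq_constantCoeff_apply, genF, map_prod]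
  apply Finset.prod_eq_one
  intro v _
  rw [← PowerSeries.coeff_zero_eq_constantCoeff_apply]
  simp

open PowerSeries in
theorem count (g : ι → ℕ) (hg : ∀ v, 0 < g v) (hgS : ∀ v, g v ∈ S) {a b p q : ℕ}
    (ha : a ∈ S) (hb : b ∈ S) (ha0 : 0 < a) (hb0 : 0 < b) (h1 : ¬ leS S a b) (h2 : ¬ leS S b a)
    (hH : hilb S = genF g * ((1 - X ^ a) ^ p * (1 - X ^ b) ^ q)) :
    (∀ s ∈ S, (∀ t ∈ S, t + a ≠ s) → (∀ t ∈ S, t + b ≠ s) → (Z g s).card = 1) ∧
    (Z g a).card = p + 1 ∧ (Z g b).card = q + 1 := by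
  have hsF := supp_genF g hg hgS
  have hsFa : Supp S (genF g * (1 - X ^ a) ^ p) := hsF.mul ((supp_one_sub ha).pow p)
  have hone : ∀ s ∈ S, coeff s (hilb S) = 1 := fun s hs => by simp [hilb, hs]
  rw [← mul_assoc] at hH
  refine ⟨?_, ?_, ?_⟩
  · intro s hs hsa hsb
    have e1 := hone s hs
    rw [hH, coeff_other hsFa hb hsb, coeff_other hsF ha hsa, coeff_genF g hg] at e1
    exact_mod_cast e1
  · have e1 := hone a ha
    have hb' : ∀ t ∈ S, t + b ≠ a := fun t ht h => h2 ⟨t, ht, by omega⟩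
    rw [hH, coeff_other hsFa hb hb', coeff_self _ ha0.ne', coeff_genF g hg, genF_zero] at e1
    omega
  · have e1 := hone b hb
    have ha' : ∀ t ∈ S, t + a ≠ b := fun t ht h => h1 ⟨t, ht, by omega⟩
    rw [hH, coeff_self _ hb0.ne', coeff_other hsF ha ha', coeff_genF g hg, coeff_zero_mul',
      genF_zero, const_one_sub_pow ha0.ne'] at e1
    omega

theorem disj (g : ι → ℕ) (hg : ∀ v, 0 < g v) (hgS : ∀ v, g v ∈ S) {a b : ℕ}
    (hone : ∀ s ∈ S, (∀ t ∈ S, t + a ≠ s) → (∀ t ∈ S, t + b ≠ s) → (Z g s).card = 1)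
    (h2 : ¬ leS S b a) (x y : ι →₀ ℕ) (hx : Finsupp.weight g x = a) (hy : Finsupp.weight g y = a)
    (hxy : x ≠ y) (v : ι) : x v = 0 ∨ y v = 0 := by
  by_contra hh
  push Not at hh
  have key : ∀ z : ι →₀ ℕ, z v ≠ 0 → z = Finsupp.single v 1 + (z - Finsupp.single v 1) := by
    intro z hz
    ext w
    simp only [Finsupp.add_apply, Finsupp.tsub_apply, Finsupp.single_apply]
    split_ifs with h
    · subst h; omega
    · omega
  set x' := x - Finsupp.single v 1 with hx'
  set y' := y - Finsupp.single v 1 with hy'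
  have ex := key x hh.1
  have ey := key y hh.2
  rw [← hx'] at ex
  rw [← hy'] at ey
  have wx : g v + Finsupp.weight g x' = a := by
    rw [← hx, ex, map_add, weight_single, one_mul]
  have wy : g v + Finsupp.weight g y' = a := by
    rw [← hy, ey, map_add, weight_single, one_mul]
  have hs := weight_memS g hgS x'
  have hgv := hg v
  have hcard := hone _ hs (fun t _ h => by omega)
    (fun t ht h => h2 ⟨t + g v, S.add_mem ht (hgS v), by omega⟩)
  rw [Finset.card_eq_one] at hcard
  obtain ⟨z, hz⟩ := hcard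
  have m1 : x' ∈ Z g (Finsupp.weight g x') := (mem_Z g hg _ _).2 rfl
  have m2 : y' ∈ Z g (Finsupp.weight g x') := (mem_Z g hg _ _).2 (by omega)
  rw [hz, Finset.mem_singleton] at m1 m2
  exact hxy (by rw [ex, ey, m1, m2])

theorem card_le (g : ι → ℕ) (hg : ∀ v, 0 < g v) {c : ℕ} (hc : 0 < c) :
    #{v | g v ∣ c} ≤ (Z g c).card := by
  apply Finset.card_le_card_of_injOn (fun v => Finsupp.single v (c / g v))
  · intro v hv
    have hv' : g v ∣ c := by simpa using hv
    rw [Finset.mem_coe, mem_Z g hg, weight_single]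
    exact Nat.div_mul_cancel hv'
  · intro v hv w hw h
    have hv' : g v ∣ c := by simpa using hv
    have hpos : c / g v ≠ 0 := (Nat.div_pos (Nat.le_of_dvd hc hv') (hg v)).ne'
    simp only at h
    rw [Finsupp.single_eq_single_iff] at h
    rcases h with h | h
    · exact h.1
    · exact absurd h.1 hpos

open PowerSeries in
theorem assemble (g : ι → ℕ) (hg : ∀ v, 0 < g v) (hgS : ∀ v, g v ∈ S)
    (hrep : ∀ s ∈ S, ∃ y : ι →₀ ℕ, Finsupp.weight g y = s) (hcof : ∃ c, ∀ n, c ≤ n → n ∈ S)
    {a b p q : ℕ} (ha : a ∈ S) (hb : b ∈ S) (ha0 : 0 < a) (hb0 : 0 < b)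
    (h1 : ¬ leS S a b) (h2 : ¬ leS S b a)
    (hH : hilb S = genF g * ((1 - X ^ a) ^ p * (1 - X ^ b) ^ q))
    (hcard : Fintype.card ι = p + q + 1) (hprod : ∏ v, g v = a ^ p * b ^ q)
    (hdiv : ∀ v, g v ∣ a ∨ g v ∣ b) (hA : #{v | g v ∣ a} = p + 1) :
    ∃ ρ : Finset ((ι →₀ ℕ) × (ι →₀ ℕ)), ρ.card + 1 = Fintype.card ι ∧
      addConGen (fun x y => (x, y) ∈ ρ) = AddCon.ker (Finsupp.weight g : (ι →₀ ℕ) →+ ℕ) := by
  obtain ⟨c1, c2, c3⟩ := count g hg hgS ha hb ha0 hb0 h1 h2 hH
  have hres : ∀ v0 : ι, ∀ c : ℕ, ∃ y : ι →₀ ℕ, Finsupp.weight g y ≡ c [MOD g v0] := by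
    intro v0 c
    obtain ⟨N, hN⟩ := hcof
    obtain ⟨y, hy⟩ := hrep (c + N * g v0) (hN _ (by
      have := Nat.le_mul_of_pos_right N (hg v0)
      omega))
    refine ⟨y, ?_⟩
    rw [hy]
    simp [Nat.ModEq]
  have hq : #{v | ¬ g v ∣ a} = q := by
    have h3 := Finset.card_filter_add_card_filter_not (s := (univ : Finset ι)) (fun v => g v ∣ a)
    rw [hA, Finset.card_univ] at h3
    omega
  have hTc : (({w | ¬ g w ∣ a} : Finset ι).image fun w => Finsupp.single w (b / g w)).card
      < (Z g b).card := by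
    have := Finset.card_image_le (s := ({w | ¬ g w ∣ a} : Finset ι))
      (f := fun w => Finsupp.single w (b / g w))
    omega
  obtain ⟨w0, hw0, hw0T⟩ := Finset.exists_mem_notMem_of_card_lt_card hTc
  rw [mem_Z g hg] at hw0
  have hsupp : ∀ w, ¬ g w ∣ a → w0 w = 0 := by
    intro w hw
    have hwb : g w ∣ b := (hdiv w).resolve_left hw
    have hne : Finsupp.single w (b / g w) ≠ w0 := by
      rintro rfl
      exact hw0T (Finset.mem_image.2 ⟨w, by simpa using hw, rfl⟩)
    have hd := disj g hg hgS (a := b) (b := a)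
      (fun s hs e1 e2 => c1 s hs e2 e1) h1 (Finsupp.single w (b / g w)) w0
      (by rw [weight_single]; exact Nat.div_mul_cancel hwb) hw0 hne w
    rcases hd with hd | hd
    · exfalso
      rw [Finsupp.single_eq_same] at hd
      exact (Nat.div_pos (Nat.le_of_dvd hb0 hwb) (hg w)).ne' hd
    · exact hd
  exact partB g a b p q hg ha0 hb0 hcard hprod hdiv hA w0 hw0 hsupp hres

end F

/-- The factorization homomorphism `φ : ℕ^e → S ⊆ ℕ`, `φ(y) = ∑ y_i n_i`. -/
noncomputable def phi (S : AddSubmonoid ℕ) : (minGens S →₀ ℕ) →+ ℕ :=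
  Finsupp.weight fun v : minGens S => (v : ℕ)

/-- `ρ` is a presentation of `S`: the congruence generated by `ρ` is the kernel congruence of
`φ`. -/
def IsPresentation (S : AddSubmonoid ℕ) (ρ : Set ((minGens S →₀ ℕ) × (minGens S →₀ ℕ))) : Prop :=
  addConGen (fun x y => (x, y) ∈ ρ) = AddCon.ker (phi S)

/-- `ρ` is a minimal presentation: a presentation no proper subset of which is a presentation. -/
def IsMinimalPresentation (S : AddSubmonoid ℕ)
    (ρ : Set ((minGens S →₀ ℕ) × (minGens S →₀ ℕ))) : Prop :=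
  IsPresentation S ρ ∧ ∀ ρ', ρ' ⊂ ρ → ¬ IsPresentation S ρ'

/-- `S` is a complete intersection: there is a minimal presentation with `e(S) - 1` elements (all
minimal presentations have the same cardinality). -/
def IsCompleteIntersection (S : AddSubmonoid ℕ) : Prop :=
  ∃ ρ, IsMinimalPresentation S ρ ∧ ρ.Finite ∧ ρ.ncard + 1 = (minGens S).ncard

theorem main (S : AddSubmonoid ℕ) (hS : ((S : Set ℕ)ᶜ).Finite) (e : ℕ → ℤ)
    (he : IsExponentSequence S e) (a b : ℕ) (hE : E S e = {a, b})
    (h1 : ¬ leS S a b) (h2 : ¬ leS S b a) : IsCompleteIntersection S := by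
  classical
  have h1S := one_not_mem h1 h2
  have hab : a ≠ b := by rintro rfl; exact h1 ⟨0, S.zero_mem, by simp⟩
  have haE : a ∈ E S e := by rw [hE]; simp
  have hbE : b ∈ E S e := by rw [hE]; simp
  have haS : a ∈ S := mem_of_ne h1S he a haE.1 haE.2.1
  have hbS : b ∈ S := mem_of_ne h1S he b hbE.1 hbE.2.1
  have ha2 := haE.1
  have hb2 := hbE.1
  have hfin := minGens_finite hS
  set G : Finset ℕ := hfin.toFinset with hGdef
  have hG : (G : Set ℕ) = minGens S := by simp [hGdef]
  have hGm : ∀ v, v ∈ G ↔ v ∈ minGens S := by simp [hGdef]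
  have hG2 : ∀ v ∈ G, 2 ≤ v := by
    intro v hv
    rw [hGm] at hv
    have := hv.2.1
    have h3 : v ≠ 1 := by rintro rfl; exact h1S hv.1
    omega
  have hid := exact_id h1S he hE hab G hG
  obtain ⟨Q, hQ, hQ1⟩ := P_poly hS
  have hpid := poly_id Q hQ G hid
  have hroot := root_arg Q G hpid
  have hdvd : ∀ x y : ℕ, x ∈ S → 0 < y → x ∣ y → leS S x y := by
    rintro x y hx hy ⟨k, rfl⟩
    have hk : 0 < k := by
      rcases Nat.eq_zero_or_pos k with rfl | h
      · simp at hy
      · exact h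
    refine ⟨(k - 1) * x, ?_, ?_⟩
    · have := AddSubmonoid.nsmul_mem S hx (k - 1)
      simpa using this
    · obtain ⟨k, rfl⟩ := Nat.exists_eq_succ_of_ne_zero hk.ne'
      simp only [Nat.succ_eq_add_one, Nat.add_sub_cancel]; ring
  -- signs
  have hapos : 0 < e a := by
    by_contra hneg
    have hne := haE.2.1
    rcases hroot a ha2 (Or.inr (Or.inl ⟨rfl, by omega⟩)) with h3 | h3
    · exact h3.1 (by omega)
    · exact h1 (hdvd a b haS (by omega) h3.2)
  have hbpos : 0 < e b := by
    by_contra hneg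
    have hne := hbE.2.1
    rcases hroot b hb2 (Or.inr (Or.inr ⟨rfl, by omega⟩)) with h3 | h3
    · exact h2 (hdvd b a hbS (by omega) h3.2)
    · exact h3.1 (by omega)
  set p := (e a).toNat with hp
  set q := (e b).toNat with hq
  have hp0 : (-e a).toNat = 0 := by omega
  have hq0 : (-e b).toNat = 0 := by omega
  rw [hp0, hq0, pow_zero, pow_zero, mul_one, mul_one] at hid hpid
  have hdivG : ∀ v ∈ G, v ∣ a ∨ v ∣ b := by
    intro v hv
    rcases hroot v (hG2 v hv) (Or.inl hv) with h3 | h3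
    · exact Or.inl h3.2
    · exact Or.inr h3.2
  obtain ⟨hcardG, hprodG⟩ := card_prod Q hQ1 (by omega) (by omega) G
    (fun v hv => by have := hG2 v hv; omega) hpid
  -- pass to the type of minimal generators
  letI : Fintype (minGens S) := hfin.fintype
  set g : minGens S → ℕ := fun v => (v : ℕ) with hg
  have htF : (minGens S).toFinset = G := by ext v; simp [hGm]
  have hgpos : ∀ v, 0 < g v := fun v => by
    have := v.2.2.1
    simp only [hg]; omega
  have hgS : ∀ v, g v ∈ S := fun v => v.2.1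
  have hcard : Fintype.card (minGens S) = p + q + 1 := by
    rw [← Set.toFinset_card, htF, hcardG]
  have hprod : ∏ v, g v = a ^ p * b ^ q := by
    rw [← hprodG]
    exact (Finset.prod_subtype G hGm (fun v => v)).symm
  have hH : hilb S = genF g * ((1 - PowerSeries.X ^ a) ^ p * (1 - PowerSeries.X ^ b) ^ q) := by
    have e1 : ∏ v ∈ G, (1 - PowerSeries.X ^ v : PowerSeries ℤ)
        = ∏ v, (1 - PowerSeries.X ^ g v) :=
      Finset.prod_subtype G hGm (fun v => (1 - PowerSeries.X ^ v : PowerSeries ℤ))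
    have e2 := genF_mul g hgpos
    rw [e1] at hid
    calc hilb S = hilb S * (genF g * ∏ v, (1 - PowerSeries.X ^ g v)) := by rw [e2, mul_one]
      _ = genF g * (hilb S * ∏ v, (1 - PowerSeries.X ^ g v)) := by ring
      _ = _ := by rw [hid]
  have hdiv : ∀ v, g v ∣ a ∨ g v ∣ b := fun v => hdivG _ ((hGm _).2 v.2)
  have hrep : ∀ s ∈ S, ∃ y : minGens S →₀ ℕ, Finsupp.weight g y = s := exists_weight
  have hcof : ∃ c, ∀ n, c ≤ n → n ∈ S := by
    obtain ⟨c, _, hc⟩ := conductor hS
    exact ⟨c, hc⟩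
  have ha0 : 0 < a := by omega
  have hb0 : 0 < b := by omega
  obtain ⟨c1, c2, c3⟩ := count g hgpos hgS haS hbS ha0 hb0 h1 h2 hH
  have hAle := card_le g hgpos ha0
  have hBle := card_le g hgpos hb0
  rw [c2] at hAle
  rw [c3] at hBle
  have hun : p + q + 1 ≤ #{v | g v ∣ a} + #{v | g v ∣ b} := by
    rw [← hcard, ← Finset.card_univ]
    refine le_trans (Finset.card_le_card ?_) (Finset.card_union_le _ _)
    intro v _
    simpa using hdiv v
  have hex : ∃ ρ : Finset ((minGens S →₀ ℕ) × (minGens S →₀ ℕ)),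
      ρ.card + 1 = Fintype.card (minGens S) ∧
      addConGen (fun x y => (x, y) ∈ ρ) = AddCon.ker (phi S) := by
    rcases (by omega : #{v | g v ∣ a} = p + 1 ∨ #{v | g v ∣ b} = q + 1) with hA | hB
    · exact assemble g hgpos hgS hrep hcof haS hbS ha0 hb0 h1 h2 hH hcard hprod hdiv hA
    · exact assemble (p := q) (q := p) g hgpos hgS hrep hcof hbS haS hb0 ha0 h2 h1
        (by rw [hH]; ring) (by rw [hcard]; ring) (by rw [hprod]; ring)
        (fun v => (hdiv v).symm) hB
  obtain ⟨ρ, hρ1, hρ2⟩ := hex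
  have hnc : (minGens S).ncard = Fintype.card (minGens S) := by
    rw [← Set.toFinset_card, Set.ncard_eq_toFinset_card']
  have hρ3 : IsPresentation S (ρ : Set ((minGens S →₀ ℕ) × (minGens S →₀ ℕ))) := hρ2
  refine ⟨_, ⟨hρ3, ?_⟩, ρ.finite_toSet, ?_⟩
  · intro ρ' hρ' hpres
    have hfin' : ρ'.Finite := ρ.finite_toSet.subset hρ'.1
    have hlt : ρ'.ncard < ρ.card := by
      rw [← Set.ncard_coe_finset]
      exact Set.ncard_lt_ncard hρ' ρ.finite_toSet
    have hne : Nonempty (minGens S) := by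
      rw [← Fintype.card_pos_iff]; omega
    obtain ⟨v0⟩ := hne
    have := lower g hgpos v0 ρ' hfin' hpres
    omega
  · rw [Set.ncard_coe_finset, hnc, hρ1]

/-- **Positive answer to Q1.**  Let `S` be a numerical semigroup with exponent sequence `e` (it
exists and is unique, see `exists_unique_exponents`).  If `E(S) = {a, b}`, `a ≠ b`, and neither
`a ≤_S b` nor `b ≤_S a`, then `S` is a complete intersection. -/
theorem result (S : AddSubmonoid ℕ) (hS : ((S : Set ℕ)ᶜ).Finite) (e : ℕ → ℤ)
    (he : IsExponentSequence S e) (a b : ℕ) (_hab : a ≠ b) (hE : E S e = {a, b})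
    (h1 : ¬ leS S a b) (h2 : ¬ leS S b a) : IsCompleteIntersection S :=
  main S hS e he a b hE h1 h2

end Pool.Agent.Results.MP_a0aa5b_al.TwoIncomparable
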